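import Mathlib

set_option autoImplicit false

namespace Pool.Agent.Results.MP_2b7cf0_al.PowComIso

universe u v

/-- The power graph of a group: distinct `x`, `y` are adjacent if and only if one of them is a
power (with an integer exponent) of the other. -/
def powerGraph (G : Type u) [Group G] : SimpleGraph G where
  Adj x y := x ≠ y ∧ ((∃ m : ℤ, x = y ^ m) ∨ (∃ m : ℤ, y = x ^ m))
  symm := ⟨fun _ _ h => ⟨h.1.symm, h.2.symm⟩⟩
  loopless := ⟨fun _ h => h.1 rfl⟩

/-- The commuting graph of a group: distinct `x`, `y` are adjacent if and only if they commute. -/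
def commutingGraph (G : Type u) [Group G] : SimpleGraph G where
  Adj x y := x ≠ y ∧ x * y = y * x
  symm := ⟨fun _ _ h => ⟨h.1.symm, h.2.symm⟩⟩
  loopless := ⟨fun _ h => h.1 rfl⟩

/-- One element is a power of the other. -/
def P {G : Type u} [Group G] (x y : G) : Prop := x ∈ Subgroup.zpowers y ∨ y ∈ Subgroup.zpowers x

section basic

variable {G : Type u} [Group G]

lemma P_symm {x y : G} (h : P x y) : P y x := h.symm

lemma P_refl (x : G) : P x x := Or.inl (Subgroup.mem_zpowers x)

lemma P_one (x : G) : P 1 x := Or.inl (Subgroup.one_mem _)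

lemma zpow_trans {x y z : G} (h1 : x ∈ Subgroup.zpowers y) (h2 : y ∈ Subgroup.zpowers z) :
    x ∈ Subgroup.zpowers z := (Subgroup.zpowers_le.mpr h2) h1

lemma P_commute {x y : G} (h : P x y) : Commute x y := by
  rcases h with ⟨m, rfl⟩ | ⟨m, rfl⟩
  · exact (Commute.refl y).zpow_left m
  · exact (Commute.refl x).zpow_right m

lemma powerGraph_adj {x y : G} : (powerGraph G).Adj x y ↔ x ≠ y ∧ P x y := by
  constructor
  · rintro ⟨h, ⟨m, hm⟩ | ⟨m, hm⟩⟩
    · exact ⟨h, Or.inl ⟨m, hm.symm⟩⟩
    · exact ⟨h, Or.inr ⟨m, hm.symm⟩⟩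
  · rintro ⟨h, ⟨m, hm⟩ | ⟨m, hm⟩⟩
    · exact ⟨h, Or.inl ⟨m, hm.symm⟩⟩
    · exact ⟨h, Or.inr ⟨m, hm.symm⟩⟩

variable [Finite G]

/-- In a finite cyclic group, an element lies in the subgroup generated by any element whose
order is a multiple of its order. -/
lemma mem_of_orderOf_dvd {x h c : G} (hx : x ∈ Subgroup.zpowers c) (hh : h ∈ Subgroup.zpowers c)
    (hd : orderOf x ∣ orderOf h) : x ∈ Subgroup.zpowers h := by
  rw [← mem_powers_iff_mem_zpowers] at hx hh
  obtain ⟨a, rfl⟩ := hx
  obtain ⟨b, rfl⟩ := hh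
  simp only at *
  set n := orderOf c with hn
  have hnpos : 0 < n := orderOf_pos c
  rw [orderOf_pow, orderOf_pow, ← hn] at hd
  have hA : n.gcd a ∣ n := Nat.gcd_dvd_left _ _
  have hB : n.gcd b ∣ n := Nat.gcd_dvd_left _ _
  have hgg : n.gcd b ∣ n.gcd a := by
    obtain ⟨A', hA'⟩ := hA
    obtain ⟨B', hB'⟩ := hB
    have hApos : 0 < n.gcd a := Nat.gcd_pos_of_pos_left _ hnpos
    have hBpos : 0 < n.gcd b := Nat.gcd_pos_of_pos_left _ hnpos
    have e1 : n / n.gcd a = A' := Nat.div_eq_of_eq_mul_right hApos hA'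
    have e2 : n / n.gcd b = B' := Nat.div_eq_of_eq_mul_right hBpos hB'
    rw [e1, e2] at hd
    obtain ⟨t, rfl⟩ := hd
    have hA'pos : 0 < A' := by
      rcases Nat.eq_zero_or_pos A' with h | h
      · rw [h, Nat.mul_zero] at hA'
        omega
      · exact h
    refine ⟨t, ?_⟩
    have : A' * n.gcd a = A' * (n.gcd b * t) := by
      calc A' * n.gcd a = n.gcd a * A' := Nat.mul_comm _ _
        _ = n := hA'.symm
        _ = n.gcd b * (A' * t) := hB'
        _ = A' * (n.gcd b * t) := by ring
    exact Nat.eq_of_mul_eq_mul_left hA'pos this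
  have hbez := Nat.gcd_eq_gcd_ab n b
  have hmem : c ^ n.gcd b ∈ Subgroup.zpowers (c ^ b) := by
    refine ⟨Nat.gcdB n b, ?_⟩
    change (c ^ b) ^ (Nat.gcdB n b) = c ^ n.gcd b
    rw [← zpow_natCast c (n.gcd b), hbez, zpow_add, zpow_mul, zpow_mul, zpow_natCast, zpow_natCast,
      hn, pow_orderOf_eq_one, one_zpow, one_mul]
  obtain ⟨t, ht⟩ := hgg.trans (Nat.gcd_dvd_right n a)
  rw [ht, pow_mul]
  exact Subgroup.pow_mem _ hmem t

/-- Elements of a cyclic group of prime power order are comparable. -/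
lemma P_of_prime_pow {x h c : G} {p k : ℕ} (hp : p.Prime) (hc : orderOf c = p ^ k)
    (hx : x ∈ Subgroup.zpowers c) (hh : h ∈ Subgroup.zpowers c) : P x h := by
  have h1 : orderOf x ∣ p ^ k := hc ▸ orderOf_dvd_of_mem_zpowers hx
  have h2 : orderOf h ∣ p ^ k := hc ▸ orderOf_dvd_of_mem_zpowers hh
  obtain ⟨a, -, ha⟩ := (Nat.dvd_prime_pow hp).mp h1
  obtain ⟨b, -, hb⟩ := (Nat.dvd_prime_pow hp).mp h2
  rcases le_total a b with h | h
  · left
    exact mem_of_orderOf_dvd hx hh (by rw [ha, hb]; exact pow_dvd_pow p h)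
  · right
    exact mem_of_orderOf_dvd hh hx (by rw [ha, hb]; exact pow_dvd_pow p h)

/-- If all element orders are prime powers, then anything commuting with a nontrivial
`p`-element is a `p`-element. -/
lemma order_of_commute (hE : ∀ g : G, ∃ p k, p.Prime ∧ orderOf g = p ^ k) {y w : G} {p b : ℕ}
    (hp : p.Prime) (hb : b ≠ 0) (hy : orderOf y = p ^ b) (hc : Commute w y) :
    ∃ c, orderOf w = p ^ c := by
  obtain ⟨q, c, hq, hw⟩ := hE w
  rcases eq_or_ne c 0 with rfl | hc0
  · exact ⟨0, by rw [hw]; simp⟩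
  rcases eq_or_ne q p with rfl | hqp
  · exact ⟨c, hw⟩
  exfalso
  have hcop : Nat.Coprime (orderOf w) (orderOf y) := by
    rw [hw, hy]
    exact Nat.Coprime.pow _ _ ((Nat.coprime_primes hq hp).mpr hqp)
  have hmul := hc.orderOf_mul_eq_mul_orderOf_of_coprime hcop
  obtain ⟨s, d, hs, hsd⟩ := hE (w * y)
  rw [hmul, hw, hy] at hsd
  have h1 : q ∣ s ^ d := hsd ▸ (Dvd.dvd.mul_right (dvd_pow_self q hc0) _)
  have h2 : p ∣ s ^ d := hsd ▸ (Dvd.dvd.mul_left (dvd_pow_self p hb) _)
  have h3 : q = s := (Nat.prime_dvd_prime_iff_eq hq hs).mp (hq.dvd_of_dvd_pow h1)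
  have h4 : p = s := (Nat.prime_dvd_prime_iff_eq hp hs).mp (hp.dvd_of_dvd_pow h2)
  exact hqp (h3.trans h4.symm)

end basic

section main

variable {G : Type u} {H : Type v} [Group G] [Finite G] [Group H] [Finite H]

/-- Step 1: all elements of `G` have prime power order. -/
lemma step1 (e : G ≃ H) (he : ∀ x y, P x y ↔ Commute (e x) (e y)) :
    ∀ g : G, ∃ p k, p.Prime ∧ orderOf g = p ^ k := by
  intro x0
  -- a maximal cyclic subgroup containing x0
  obtain ⟨g, hg, hmax⟩ : ∃ g : G, x0 ∈ Subgroup.zpowers g ∧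
      ∀ h : G, x0 ∈ Subgroup.zpowers h → orderOf h ≤ orderOf g :=
    Set.exists_max_image {g : G | x0 ∈ Subgroup.zpowers g} orderOf (Set.toFinite _)
      ⟨x0, Subgroup.mem_zpowers x0⟩
  have hmax' : ∀ h : G, g ∈ Subgroup.zpowers h → h ∈ Subgroup.zpowers g := by
    intro h hh
    have h1 : orderOf h ≤ orderOf g := hmax h (zpow_trans hg hh)
    have h2 : Subgroup.zpowers g ≤ Subgroup.zpowers h := Subgroup.zpowers_le.mpr hh
    have h3 : Subgroup.zpowers g = Subgroup.zpowers h := by
      apply Subgroup.eq_of_le_of_card_ge h2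
      rw [Nat.card_zpowers, Nat.card_zpowers]
      exact h1
    rw [h3]
    exact Subgroup.mem_zpowers h
  have hPg : ∀ h : G, P h g ↔ h ∈ Subgroup.zpowers g := by
    intro h
    constructor
    · rintro (h1 | h1)
      · exact h1
      · exact hmax' h h1
    · intro h1
      exact Or.inl h1
  -- it suffices that the order of g is a prime power
  suffices hs : ∃ p k, p.Prime ∧ orderOf g = p ^ k by
    obtain ⟨p, k, hp, hk⟩ := hs
    have : orderOf x0 ∣ p ^ k := hk ▸ orderOf_dvd_of_mem_zpowers hg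
    obtain ⟨a, -, ha⟩ := (Nat.dvd_prime_pow hp).mp this
    exact ⟨p, a, hp, ha⟩
  rcases eq_or_ne (orderOf g) 1 with h1 | h1
  · exact ⟨2, 0, Nat.prime_two, by rw [h1]; simp⟩
  obtain ⟨p, hp, hpg⟩ := Nat.exists_prime_and_dvd h1
  have hg0 : orderOf g ≠ 0 := (orderOf_pos g).ne'
  set x := g ^ (orderOf g / p) with hx
  have hxo : orderOf x = p := orderOf_pow_orderOf_div hg0 hpg
  have hxg : x ∈ Subgroup.zpowers g := Subgroup.pow_mem _ (Subgroup.mem_zpowers g) _
  -- elements of the cyclic group whose order is divisible by p are related to x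
  have hrel : ∀ h ∈ Subgroup.zpowers g, p ∣ orderOf h → x ∈ Subgroup.zpowers h := by
    intro h hh hph
    exact mem_of_orderOf_dvd hxg hh (by rw [hxo]; exact hph)
  -- the two subgroups of H
  let HH : Subgroup H := Subgroup.centralizer {e g}
  let KK : Subgroup H := Subgroup.centralizer {e x} ⊓ HH
  have hHH : ∀ w : H, w ∈ HH ↔ e.symm w ∈ Subgroup.zpowers g := by
    intro w
    rw [← hPg, he, Equiv.apply_symm_apply, Subgroup.mem_centralizer_singleton_iff]
    rfl
  have hKK : ∀ w : H, w ∈ KK ↔ (e.symm w ∈ Subgroup.zpowers g ∧ P (e.symm w) x) := by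
    intro w
    rw [Subgroup.mem_inf, hHH, and_comm, he, Equiv.apply_symm_apply,
      Subgroup.mem_centralizer_singleton_iff]
    rfl
  set Z : Set G := {h | h ∈ Subgroup.zpowers g} with hZ
  set ZA : Set G := {h | h ∈ Subgroup.zpowers g ∧ P h x} with hZA
  set ZB : Set G := {h | h ∈ Subgroup.zpowers g ∧ ¬ P h x} with hZB
  have hZcard : Nat.card HH = Z.ncard := by
    have : (HH : Set H) = e '' Z := by
      ext w
      rw [SetLike.mem_coe, hHH]
      constructor
      · intro h
        exact ⟨e.symm w, h, e.apply_symm_apply w⟩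
      · rintro ⟨h, hh, rfl⟩
        rw [e.symm_apply_apply]
        exact hh
    have h2 : Nat.card HH = (HH : Set H).ncard := rfl
    rw [h2, this, Set.ncard_image_of_injective _ e.injective]
  have hZAcard : Nat.card KK = ZA.ncard := by
    have : (KK : Set H) = e '' ZA := by
      ext w
      rw [SetLike.mem_coe, hKK]
      constructor
      · intro h
        exact ⟨e.symm w, h, e.apply_symm_apply w⟩
      · rintro ⟨h, hh, rfl⟩
        rw [e.symm_apply_apply]
        exact hh
    have h2 : Nat.card KK = (KK : Set H).ncard := rfl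
    rw [h2, this, Set.ncard_image_of_injective _ e.injective]
  have hsum : Z.ncard = ZA.ncard + ZB.ncard := by
    rw [← Set.ncard_union_eq]
    · congr 1
      ext h
      simp only [hZ, hZA, hZB, Set.mem_ofPred_eq, Set.mem_union]
      tauto
    · rw [Set.disjoint_left]
      intro h h1 h2
      exact h2.2 h1.2
  have h1ZA : (1 : G) ∈ ZA := ⟨Subgroup.one_mem _, P_one x⟩
  have hZBle : ZB.ncard ≤ (ZA \ {1}).ncard := by
    apply Set.ncard_le_ncard_of_injOn (fun h => h * x)
    · intro h hh
      have hnp : ¬ p ∣ orderOf h := fun hc => hh.2 (Or.inr (hrel h hh.1 hc))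
      have hhx : h * x ∈ Subgroup.zpowers g := Subgroup.mul_mem _ hh.1 hxg
      have hcomm : Commute h x := by
        obtain ⟨a, rfl⟩ := hh.1
        obtain ⟨b, hb⟩ := hxg
        have : g ^ b = x := hb
        rw [← this]
        exact Commute.zpow_zpow_self g a b
      have hcop : Nat.Coprime (orderOf h) (orderOf x) := by
        rw [hxo]
        exact ((Nat.Prime.coprime_iff_not_dvd hp).mpr hnp).symm
      have horder := hcomm.orderOf_mul_eq_mul_orderOf_of_coprime hcop
      refine ⟨⟨hhx, Or.inr (hrel _ hhx ?_)⟩, ?_⟩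
      · rw [horder, hxo]
        exact Dvd.intro_left _ rfl
      · intro h1
        have h1' : h * x = 1 := h1
        rw [h1', orderOf_one, hxo] at horder
        have := hp.one_lt
        have h3 : orderOf h * p = 1 := horder.symm
        have := Nat.eq_one_of_mul_eq_one_left h3
        omega
    · intro a _ b _ hab
      exact mul_right_cancel hab
  have hZA1 : (ZA \ {1}).ncard + 1 = ZA.ncard := Set.ncard_sdiff_singleton_add_one h1ZA
  have hdvd : Nat.card KK ∣ Nat.card HH := Subgroup.card_dvd_of_le inf_le_right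
  have heq : Nat.card KK = Nat.card HH := by
    obtain ⟨t, ht⟩ := hdvd
    have hpos : 0 < Nat.card HH := Nat.card_pos
    have hlt : Nat.card HH < Nat.card KK * 2 := by
      rw [hZcard, hZAcard]
      omega
    rw [ht] at hlt hpos ⊢
    have ht2 : t < 2 := lt_of_mul_lt_mul_left hlt (Nat.zero_le _)
    have ht0 : t ≠ 0 := by
      rintro rfl
      simp at hpos
    have : t = 1 := by omega
    rw [this, mul_one]
  have hall : ∀ h ∈ Subgroup.zpowers g, P h x := by
    intro h hh
    by_contra hcon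
    have hmem : h ∈ ZB := ⟨hh, hcon⟩
    have : 0 < ZB.ncard := (Set.ncard_pos (Set.toFinite _)).mpr ⟨h, hmem⟩
    rw [hZcard, hZAcard] at heq
    omega
  refine ⟨p, (orderOf g).primeFactorsList.length, hp, ?_⟩
  apply Nat.eq_prime_pow_of_unique_prime_dvd hg0
  intro q hq hqg
  have hqo : orderOf (g ^ (orderOf g / q)) = q := orderOf_pow_orderOf_div hg0 hqg
  rcases hall _ (Subgroup.pow_mem _ (Subgroup.mem_zpowers g) (orderOf g / q)) with h | h
  · have := orderOf_dvd_of_mem_zpowers h
    rw [hqo, hxo] at this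
    exact (Nat.prime_dvd_prime_iff_eq hq hp).mp this
  · have := orderOf_dvd_of_mem_zpowers h
    rw [hqo, hxo] at this
    exact ((Nat.prime_dvd_prime_iff_eq hp hq).mp this).symm

/-- Step 2: the set of elements dominating the neighbourhood of `g` is a cyclic group. -/
lemma step2 (hE : ∀ g : G, ∃ p k, p.Prime ∧ orderOf g = p ^ k) (g : G) :
    ∃ h0 : G, ∀ h : G, (∀ w : G, P w g → P w h) ↔ h ∈ Subgroup.zpowers h0 := by
  set T : Set G := {h | ∀ w : G, P w g → P w h} with hT
  have hclique : ∀ h ∈ T, ∀ h' ∈ T, P h h' := by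
    intro h hh h' hh'
    have h1 : P g h := hh g (P_refl g)
    exact hh' h (P_symm h1)
  have hclosed : ∀ h ∈ T, ∀ k ∈ Subgroup.zpowers h, k ∈ T := by
    intro h hh k hk w hw
    rcases hh w hw with h1 | h1
    · obtain ⟨p, n, hp, hn⟩ := hE h
      exact P_of_prime_pow hp hn h1 hk
    · exact Or.inr (zpow_trans hk h1)
  obtain ⟨h0, hh0, hmax⟩ := Set.exists_max_image T orderOf (Set.toFinite _) ⟨g, fun w hw => hw⟩
  refine ⟨h0, fun h => ⟨fun hh => ?_, fun hh => hclosed h0 hh0 h hh⟩⟩
  rcases hclique h hh h0 hh0 with h1 | h1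
  · exact h1
  · have h2 : Subgroup.zpowers h0 = Subgroup.zpowers h := by
      apply Subgroup.eq_of_le_of_card_ge (Subgroup.zpowers_le.mpr h1)
      rw [Nat.card_zpowers, Nat.card_zpowers]
      exact hmax h hh
    rw [h2]
    exact Subgroup.mem_zpowers h

lemma step2' (e : G ≃ H) (he : ∀ x y, P x y ↔ Commute (e x) (e y))
    (hE : ∀ g : G, ∃ p k, p.Prime ∧ orderOf g = p ^ k) (g : G) :
    ∃ h0 : G, g ∈ Subgroup.zpowers h0 ∧ orderOf (e g) ∣ orderOf h0 := by
  obtain ⟨h0, hh0⟩ := step2 hE g
  refine ⟨h0, (hh0 g).mp (fun w hw => hw), ?_⟩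
  let T : Subgroup H := Subgroup.centralizer (Subgroup.centralizer {e g} : Set H)
  have hT : ∀ w : H, w ∈ T ↔ e.symm w ∈ Subgroup.zpowers h0 := by
    intro w
    rw [← hh0, Subgroup.mem_centralizer_iff]
    constructor
    · intro h z hz
      rw [he, Equiv.apply_symm_apply]
      exact h (e z) (by
        rw [SetLike.mem_coe, Subgroup.mem_centralizer_singleton_iff]
        exact (he z g).mp hz)
    · intro h z hz
      rw [SetLike.mem_coe, Subgroup.mem_centralizer_singleton_iff] at hz
      have h1 : P (e.symm z) g := by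
        rw [he, Equiv.apply_symm_apply]
        exact hz
      have h2 := h _ h1
      rw [he, Equiv.apply_symm_apply, Equiv.apply_symm_apply] at h2
      exact h2
  have hcard : Nat.card T = orderOf h0 := by
    have : (T : Set H) = e '' (Subgroup.zpowers h0 : Set G) := by
      ext w
      rw [SetLike.mem_coe, hT]
      constructor
      · intro h
        exact ⟨e.symm w, h, e.apply_symm_apply w⟩
      · rintro ⟨h, hh, rfl⟩
        rw [e.symm_apply_apply]
        exact hh
    have h2 : Nat.card T = (T : Set H).ncard := rfl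
    rw [h2, this, Set.ncard_image_of_injective _ e.injective, ← Nat.card_zpowers]
    rfl
  have hmem : e g ∈ T := by
    rw [hT, e.symm_apply_apply]
    exact (hh0 g).mp (fun w hw => hw)
  rw [← hcard]
  exact Subgroup.orderOf_dvd_natCard T hmem

/-- Step 3: for an element `g` of prime order everything commuting with `g` is comparable
with `g`. -/
lemma step3 (e : G ≃ H) (he : ∀ x y, P x y ↔ Commute (e x) (e y)) (h1 : e 1 = 1)
    (g : G) (p : ℕ) (hp : p.Prime) (hg : orderOf g = p) :
    ∀ w : G, Commute w g → P w g := by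
  have hE := step1 e he
  have hE' : ∀ y : H, ∃ p k, p.Prime ∧ orderOf y = p ^ k := by
    intro y
    obtain ⟨h0, -, hd⟩ := step2' e he hE (e.symm y)
    rw [e.apply_symm_apply] at hd
    obtain ⟨q, k, hq, hk⟩ := hE h0
    rw [hk] at hd
    obtain ⟨a, -, ha⟩ := (Nat.dvd_prime_pow hq).mp hd
    exact ⟨q, a, hq, ha⟩
  have : Fact p.Prime := ⟨hp⟩
  have hgne : g ≠ 1 := by
    rintro rfl
    rw [orderOf_one] at hg
    exact hp.one_lt.ne hg
  have hegne : e g ≠ 1 := by
    rw [← h1]
    exact fun h => hgne (e.injective h)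
  obtain ⟨b, hb0, hb⟩ : ∃ b, b ≠ 0 ∧ orderOf (e g) = p ^ b := by
    obtain ⟨h0, hgh0, hd⟩ := step2' e he hE g
    obtain ⟨q, k, hq, hk⟩ := hE h0
    have h2 : p ∣ q ^ k := by
      rw [← hk, ← hg]
      exact orderOf_dvd_of_mem_zpowers hgh0
    have hpq : p = q := (Nat.prime_dvd_prime_iff_eq hp hq).mp (hp.dvd_of_dvd_pow h2)
    subst hpq
    rw [hk] at hd
    obtain ⟨a, -, ha⟩ := (Nat.dvd_prime_pow hq).mp hd
    refine ⟨a, ?_, ha⟩
    rintro rfl
    rw [pow_zero, orderOf_eq_one_iff] at ha
    exact hegne ha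
  let HH : Subgroup H := Subgroup.centralizer {e g}
  have hHH : ∀ w : H, w ∈ HH ↔ Commute w (e g) := by
    intro w
    rw [Subgroup.mem_centralizer_singleton_iff]
    rfl
  have hHHp : IsPGroup p HH := by
    rw [IsPGroup.iff_orderOf]
    rintro ⟨w, hw⟩
    obtain ⟨c, hc⟩ := order_of_commute hE' hp hb0 hb ((hHH w).mp hw)
    exact ⟨c, by rw [Subgroup.orderOf_mk]; exact hc⟩
  obtain ⟨R, hR⟩ := hHHp.exists_le_sylow
  have hegR : e g ∈ (R : Subgroup H) := hR ((hHH _).mpr (Commute.refl _))
  have : Nontrivial (R : Subgroup H) := by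
    refine ⟨⟨⟨e g, hegR⟩, 1, ?_⟩⟩
    intro h
    exact hegne (congrArg Subtype.val h)
  have := R.isPGroup'.center_nontrivial
  obtain ⟨⟨⟨w, hwR⟩, hwc⟩, hw1⟩ := exists_ne (1 : Subgroup.center (R : Subgroup H))
  have hwne : w ≠ 1 := by
    rintro rfl
    exact hw1 rfl
  have hwcomm : ∀ z ∈ (R : Subgroup H), Commute z w := by
    intro z hz
    have := Subgroup.mem_center_iff.mp hwc ⟨z, hz⟩
    exact congrArg Subtype.val this
  set k := e.symm w with hk
  have hek : e k = w := e.apply_symm_apply w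
  have hkne : k ≠ 1 := by
    rintro h
    apply hwne
    rw [← hek, h, h1]
  have hcompar : ∀ z : G, z ≠ 1 → P z g → g ∈ Subgroup.zpowers z := by
    intro z hz hzg
    rcases hzg with h | h
    · have hd := orderOf_dvd_of_mem_zpowers h
      rw [hg] at hd
      rcases (Nat.dvd_prime hp).mp hd with h2 | h2
      · rw [orderOf_eq_one_iff] at h2
        exact (hz h2).elim
      · exact mem_of_orderOf_dvd (Subgroup.mem_zpowers g) h (by rw [hg, h2])
    · exact h
  have hgk : g ∈ Subgroup.zpowers k := by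
    apply hcompar k hkne
    rw [he, hek]
    exact (hwcomm _ hegR).symm
  have hRHH : (R : Subgroup H) ≤ HH := by
    intro z hz
    rw [hHH]
    have h2 : P (e.symm z) k := by
      rw [he, Equiv.apply_symm_apply, hek]
      exact hwcomm z hz
    have h3 : P (e.symm z) g := by
      rcases h2 with h2 | h2
      · obtain ⟨q, n, hq, hn⟩ := hE k
        exact P_of_prime_pow hq hn h2 hgk
      · exact Or.inr (zpow_trans hgk h2)
    rw [he, Equiv.apply_symm_apply] at h3
    exact h3
  have hRe : (R : Subgroup H) = HH := le_antisymm hRHH hR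
  have hcardHH : Nat.card HH = p ^ (Nat.card H).factorization p := by
    rw [← hRe]
    exact R.card_eq_multiplicity
  -- the centralizer in G
  let CC : Subgroup G := Subgroup.centralizer {g}
  have hCC : ∀ z : G, z ∈ CC ↔ Commute z g := by
    intro z
    rw [Subgroup.mem_centralizer_singleton_iff]
    rfl
  have hCCp : IsPGroup p CC := by
    rw [IsPGroup.iff_orderOf]
    rintro ⟨z, hz⟩
    obtain ⟨c, hc⟩ := order_of_commute hE hp one_ne_zero (by rw [pow_one]; exact hg)
      ((hCC z).mp hz)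
    exact ⟨c, by rw [Subgroup.orderOf_mk]; exact hc⟩
  have hcardCC : Nat.card CC ≤ Nat.card HH := by
    obtain ⟨n, hn⟩ := IsPGroup.iff_card.mp hCCp
    rw [hcardHH, hn]
    apply Nat.pow_le_pow_right hp.pos
    rw [← hp.pow_dvd_iff_le_factorization Nat.card_pos.ne', ← Nat.card_congr e, ← hn]
    exact Subgroup.card_subgroup_dvd_card CC
  have hset : {z : G | P z g} ⊆ (CC : Set G) := by
    intro z hz
    rw [SetLike.mem_coe, hCC]
    exact P_commute hz
  have hcardset : {z : G | P z g}.ncard = Nat.card HH := by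
    have : (HH : Set H) = e '' {z : G | P z g} := by
      ext z
      rw [SetLike.mem_coe, hHH]
      constructor
      · intro h
        refine ⟨e.symm z, ?_, e.apply_symm_apply z⟩
        rw [Set.mem_ofPred_eq, he, Equiv.apply_symm_apply]
        exact h
      · rintro ⟨h, hh, rfl⟩
        exact (he _ _).mp hh
    have h2 : Nat.card HH = (HH : Set H).ncard := rfl
    rw [h2, this, Set.ncard_image_of_injective _ e.injective]
  have hfin : {z : G | P z g} = (CC : Set G) := by
    apply Set.eq_of_subset_of_ncard_le hset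
    rw [hcardset]
    exact hcardCC
  intro z hz
  have : z ∈ (CC : Set G) := (hCC z).mpr hz
  rw [← hfin] at this
  exact this

/-- Step 4: commuting elements are comparable. -/
lemma step4 (e : G ≃ H) (he : ∀ x y, P x y ↔ Commute (e x) (e y)) (h1 : e 1 = 1)
    (x : G) : ∀ n : ℕ, ∀ y : G, orderOf y = n → orderOf y ≤ orderOf x → Commute x y →
      y ∈ Subgroup.zpowers x := by
  have hE := step1 e he
  intro n
  induction n using Nat.strong_induction_on with
  | _ n ih =>
    intro y hyn hle hxy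
    rcases eq_or_ne y 1 with rfl | hy1
    · exact Subgroup.one_mem _
    obtain ⟨p, b, hp, hb⟩ := hE y
    have hb0 : b ≠ 0 := by
      rintro rfl
      rw [pow_zero, orderOf_eq_one_iff] at hb
      exact hy1 hb
    obtain ⟨a, ha⟩ := order_of_commute hE hp hb0 hb hxy
    have hab : b ≤ a := by
      rw [hb, ha] at hle
      exact (Nat.pow_le_pow_iff_right hp.one_lt).mp hle
    obtain ⟨b', rfl⟩ := Nat.exists_eq_succ_of_ne_zero hb0
    obtain ⟨a', rfl⟩ : ∃ a', a = a' + 1 := ⟨a - 1, by omega⟩
    -- the element of order p in the group generated by x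
    have hgo : orderOf (x ^ p ^ a') = p := by
      have h2 : orderOf x / p = p ^ a' := by
        rw [ha, pow_succ]
        exact Nat.mul_div_cancel _ hp.pos
      rw [← h2]
      exact orderOf_pow_orderOf_div (orderOf_pos x).ne' (by rw [ha]; exact dvd_pow_self p (by omega))
    have hg'o : orderOf (y ^ p ^ b') = p := by
      have h2 : orderOf y / p = p ^ b' := by
        rw [hb, pow_succ]
        exact Nat.mul_div_cancel _ hp.pos
      rw [← h2]
      exact orderOf_pow_orderOf_div (orderOf_pos y).ne' (by rw [hb]; exact dvd_pow_self p (by omega))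
    have hP : P (y ^ p ^ b') (x ^ p ^ a') := by
      apply step3 e he h1 _ p hp hgo
      exact ((hxy.symm).pow_pow _ _)
    have hmem : y ^ p ^ b' ∈ Subgroup.zpowers (x ^ p ^ a') := by
      rcases hP with h | h
      · exact h
      · exact mem_of_orderOf_dvd (Subgroup.mem_zpowers _) h (by rw [hgo, hg'o])
    obtain ⟨t, ht⟩ := hmem
    have ht' : (x ^ p ^ a') ^ t = y ^ p ^ b' := ht
    set z := y * (x ^ (p ^ (a' - b'))) ^ (-t) with hz
    have hcz : Commute y ((x ^ (p ^ (a' - b'))) ^ (-t)) :=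
      (hxy.symm.pow_right _).zpow_right _
    have hzpow : z ^ p ^ b' = 1 := by
      rw [hz, hcz.mul_pow, ← zpow_natCast ((x ^ (p ^ (a' - b'))) ^ (-t)), ← zpow_mul, mul_comm (-t),
        zpow_mul, zpow_natCast, ← pow_mul, ← pow_add, Nat.sub_add_cancel (by omega), zpow_neg,
        ht', mul_inv_cancel]
    have hzo : orderOf z ≤ p ^ b' := Nat.le_of_dvd (Nat.pow_pos hp.pos) (orderOf_dvd_of_pow_eq_one hzpow)
    have hlt : p ^ b' < n := by
      rw [← hyn, hb]
      exact Nat.pow_lt_pow_right hp.one_lt (Nat.lt_succ_self _)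
    have hzmem : z ∈ Subgroup.zpowers x := by
      apply ih (orderOf z) (lt_of_le_of_lt hzo hlt) z rfl
      · omega
      · rw [hz]
        exact hxy.mul_right (((Commute.refl x).pow_right _).zpow_right _)
    have hy : y = z * ((x ^ (p ^ (a' - b'))) ^ t) := by
      rw [hz, mul_assoc, zpow_neg, inv_mul_cancel, mul_one]
    rw [hy]
    exact Subgroup.mul_mem _ hzmem
      (Subgroup.zpow_mem _ (Subgroup.pow_mem _ (Subgroup.mem_zpowers x) _) _)

lemma main1 (e : G ≃ H) (he : ∀ x y, P x y ↔ Commute (e x) (e y)) (h1 : e 1 = 1)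
    (x y : G) (hxy : Commute x y) : P x y := by
  rcases le_total (orderOf y) (orderOf x) with h | h
  · exact Or.inr (step4 e he h1 x _ y rfl h hxy)
  · exact Or.inl (step4 e he h1 y _ x rfl h hxy.symm)

lemma main2 (e : G ≃ H) (he : ∀ x y, P x y ↔ Commute (e x) (e y))
    (x y : G) (hxy : Commute x y) : P x y := by
  have hcent : ∀ z : H, Commute (e 1) z := by
    intro z
    have := (he 1 (e.symm z)).mp (P_one _)
    rwa [Equiv.apply_symm_apply] at this
  refine main1 (e.trans (Equiv.mulLeft (e 1)⁻¹)) ?_ ?_ x y hxy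
  · intro a b
    rw [he]
    simp only [Equiv.trans_apply, Equiv.coe_mulLeft]
    constructor
    · intro h
      have ha : Commute (e 1)⁻¹ (e a) := (hcent _).inv_left
      have hb : Commute (e 1)⁻¹ (e b) := (hcent _).inv_left
      exact ((Commute.refl _).mul_right hb).mul_left (ha.symm.mul_right h)
    · intro h
      have h2 : Commute (e 1 * ((e 1)⁻¹ * e a)) (e 1 * ((e 1)⁻¹ * e b)) :=
        ((Commute.refl _).mul_right (hcent _)).mul_left (((hcent _).symm).mul_right h)
      rwa [mul_inv_cancel_left, mul_inv_cancel_left] at h2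
  · simp

end main

/-- For finite groups `G₁`, `G₂`: if the power graph of `G₁` is isomorphic to the commuting graph
of `G₂`, then the power graph of `G₁` is equal to the commuting graph of `G₁`. -/
theorem result (G₁ : Type u) (G₂ : Type v) [Group G₁] [Finite G₁] [Group G₂] [Finite G₂]
    (h : Nonempty (powerGraph G₁ ≃g commutingGraph G₂)) :
    powerGraph G₁ = commutingGraph G₁ := by
  obtain ⟨φ⟩ := h
  have he : ∀ x y : G₁, P x y ↔ Commute (φ.toEquiv x) (φ.toEquiv y) := by
    intro x y
    rcases eq_or_ne x y with rfl | hne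
    · exact ⟨fun _ => Commute.refl _, fun _ => P_refl _⟩
    · have h1 := φ.map_adj_iff (v := x) (w := y)
      rw [powerGraph_adj] at h1
      have hne' : φ x ≠ φ y := fun h => hne (φ.injective h)
      constructor
      · intro h
        exact (h1.mpr ⟨hne, h⟩).2
      · intro h
        exact (h1.mp ⟨hne', h⟩).2
  ext x y
  rw [powerGraph_adj]
  constructor
  · rintro ⟨h1, h2⟩
    exact ⟨h1, P_commute h2⟩
  · rintro ⟨h1, h2⟩
    exact ⟨h1, main2 φ.toEquiv he x y h2⟩

end Pool.Agent.Results.MP_2b7cf0_al.PowComIso
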